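import Pool.Agent.H18.HX.Targets

/-!
# Dense orbits on arbitrary varieties: row NFC: the denominator
-/

set_option autoImplicit false

open MvPolynomial
open Pool.Agent.H12.ZD (pmap v O Res DenseOrbit NoInv)
open Pool.Agent.H18.HIT
open Pool.Agent.H18.HX

namespace Pool.Agent.H11.HX.NFC

section

variable {L N : ℕ} {k : Type} [Field k]

/-- the elements which are equal to an element of `k[l]` modulo `I` -/
def B (I : Ideal (Po L k)) (l : Fin (N + 1) → Po L k) : Subalgebra k (Po L k) where
  carrier := {q | ∃ q' : Po (N + 1) k, q - aeval l q' ∈ I}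
  mul_mem' := by
    rintro a b ⟨a', ha⟩ ⟨b', hb⟩
    refine ⟨a' * b', ?_⟩
    have h : a * b - aeval l (a' * b') = a * (b - aeval l b') + aeval l b' * (a - aeval l a') := by
      rw [map_mul]
      ring
    rw [h]
    exact I.add_mem (I.mul_mem_left _ hb) (I.mul_mem_left _ ha)
  add_mem' := by
    rintro a b ⟨a', ha⟩ ⟨b', hb⟩
    refine ⟨a' + b', ?_⟩
    have h : a + b - aeval l (a' + b') = (a - aeval l a') + (b - aeval l b') := by
      rw [map_add]
      ring
    rw [h]
    exact I.add_mem ha hb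
  algebraMap_mem' := by
    intro c
    refine ⟨C c, ?_⟩
    rw [algHom_C, sub_self]
    exact I.zero_mem

theorem mem_B {I : Ideal (Po L k)} {l : Fin (N + 1) → Po L k} {q : Po L k} :
    q ∈ B I l ↔ ∃ q' : Po (N + 1) k, q - aeval l q' ∈ I := Iff.rfl

theorem aeval_mem (I : Ideal (Po L k)) (l : Fin (N + 1) → Po L k) (q : Po (N + 1) k) :
    aeval l q ∈ B I l := ⟨q, by rw [sub_self]; exact I.zero_mem⟩

theorem ideal_mem {I : Ideal (Po L k)} (l : Fin (N + 1) → Po L k) {q : Po L k} (h : q ∈ I) :
    q ∈ B I l := ⟨0, by rwa [map_zero, sub_zero]⟩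

theorem aeval_succ (l : Fin (N + 1) → Po L k) (q : Po N k) :
    aeval (fun j : Fin N => l j.succ) q = aeval l (rename Fin.succ q) := by
  rw [aeval_rename]
  rfl

theorem succ_mem (I : Ideal (Po L k)) (l : Fin (N + 1) → Po L k) (q : Po N k) :
    aeval (fun j : Fin N => l j.succ) q ∈ B I l := by
  rw [aeval_succ]
  exact aeval_mem I l _

theorem evg_mem (I : Ideal (Po L k)) (l : Fin (N + 1) → Po L k) (R : Polynomial (Po N k)) :
    evg (fun j : Fin N => l j.succ) (l 0) R ∈ B I l := by
  unfold evg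
  rw [Polynomial.eval₂_eq_sum]
  refine (B I l).sum_mem fun n _ => (B I l).mul_mem (succ_mem I l _) ((B I l).pow_mem ?_ n)
  have h := aeval_mem I l (X 0)
  rwa [aeval_X] at h

/-- the denominator for the powers of one variable -/
theorem pow_mem (I : Ideal (Po L k)) (l : Fin (N + 1) → Po L k) (x : Po L k)
    (Q : Polynomial (Po N k)) (hQ : Q.Monic) (hx : evg (fun j : Fin N => l j.succ) x Q ∈ I)
    (D : Po L k) (hD : D ∈ B I l) (hDx : D * x ∈ B I l) (n : ℕ) :
    D ^ Q.natDegree * x ^ n ∈ B I l := by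
  have h1 : ∀ m ≤ Q.natDegree, D ^ Q.natDegree * x ^ m ∈ B I l := by
    intro m hm
    have h2 : D ^ Q.natDegree * x ^ m = D ^ (Q.natDegree - m) * (D * x) ^ m := by
      rw [mul_pow, ← mul_assoc, ← pow_add, Nat.sub_add_cancel hm]
    rw [h2]
    exact (B I l).mul_mem ((B I l).pow_mem hD _) ((B I l).pow_mem hDx _)
  set W := (Polynomial.X ^ n : Polynomial (Po N k)) %ₘ Q with hW
  have h3 := Polynomial.modByMonic_add_div (Polynomial.X ^ n : Polynomial (Po N k)) Q
  have h4 : x ^ n = evg (fun j : Fin N => l j.succ) x W +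
      evg (fun j : Fin N => l j.succ) x Q * evg (fun j : Fin N => l j.succ) x
        ((Polynomial.X ^ n : Polynomial (Po N k)) /ₘ Q) := by
    unfold evg
    rw [← Polynomial.eval₂_mul, ← Polynomial.eval₂_add, hW, h3, Polynomial.eval₂_X_pow]
  have h5 : D ^ Q.natDegree * evg (fun j : Fin N => l j.succ) x W ∈ B I l := by
    unfold evg
    rw [Polynomial.eval₂_eq_sum, Polynomial.sum_def, Finset.mul_sum]
    refine (B I l).sum_mem fun m hm => ?_
    have h6 : m ≤ Q.natDegree :=
      (Polynomial.le_natDegree_of_mem_supp m hm).trans (Polynomial.natDegree_modByMonic_le _ hQ)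
    have h7 : ∀ a : Po L k, D ^ Q.natDegree * (a * x ^ m) = a * (D ^ Q.natDegree * x ^ m) :=
      fun a => by ring
    rw [h7]
    exact (B I l).mul_mem (succ_mem I l _) (h1 m h6)
  rw [h4, mul_add]
  refine (B I l).add_mem h5 (ideal_mem l ?_)
  exact I.mul_mem_left _ (I.mul_mem_right _ hx)

theorem hc_aeval {M : ℕ} (l : Fin M → Po L k) (hl : ∀ i, (l i).IsHomogeneous 1) (p : Po M k)
    (n : ℕ) : homogeneousComponent n (aeval l p) = aeval l (homogeneousComponent n p) := by
  have h1 : ∀ i, (aeval l (homogeneousComponent i p)).IsHomogeneous i := by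
    intro i
    have h2 := (homogeneousComponent_isHomogeneous i p).aeval l hl
    rwa [one_mul] at h2
  have h3 : aeval l p = ∑ i ∈ Finset.range (p.totalDegree + 1),
      aeval l (homogeneousComponent i p) := by
    rw [← map_sum, sum_homogeneousComponent]
  rw [h3, map_sum]
  have h4 : ∀ i ∈ Finset.range (p.totalDegree + 1),
      homogeneousComponent n (aeval l (homogeneousComponent i p)) =
        if n = i then aeval l (homogeneousComponent i p) else 0 := fun i _ =>
    homogeneousComponent_of_mem (h1 i)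
  rw [Finset.sum_congr rfl h4, Finset.sum_ite_eq]
  split_ifs with h5
  · rfl
  · rw [homogeneousComponent_eq_zero, map_zero]
    simp only [Finset.mem_range] at h5
    omega

theorem hc_mul (p q : Po L k) (t n : ℕ) (hq : q.IsHomogeneous t) :
    homogeneousComponent (n + t) (p * q) = homogeneousComponent n p * q := by
  have h3 : p * q = ∑ i ∈ Finset.range (p.totalDegree + 1), homogeneousComponent i p * q := by
    rw [← Finset.sum_mul, sum_homogeneousComponent]
  rw [h3, map_sum]
  have h4 : ∀ i ∈ Finset.range (p.totalDegree + 1),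
      homogeneousComponent (n + t) (homogeneousComponent i p * q) =
        if n = i then homogeneousComponent i p * q else 0 := by
    intro i _
    rw [homogeneousComponent_of_mem ((homogeneousComponent_isHomogeneous i p).mul hq)]
    by_cases h : n = i
    · rw [if_pos h, if_pos (by omega)]
    · rw [if_neg h, if_neg (by omega)]
  rw [Finset.sum_congr rfl h4, Finset.sum_ite_eq]
  split_ifs with h5
  · rfl
  · rw [homogeneousComponent_eq_zero, zero_mul]
    simp only [Finset.mem_range] at h5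
    omega

end

end Pool.Agent.H11.HX.NFC

namespace Pool.Agent.H11.HX

open Pool.Agent.H11.HX.NFC

theorem pf_NFC : T_NFC := by
  intro L N r k _ I _ l P hN hI hl _ hmon hΔ hP hker
  obtain ⟨Δ, R, hΔ0, hΔR⟩ := hΔ
  choose Q hQ hQI using hmon
  -- step 1
  set D := aeval (fun j : Fin N => l j.succ) Δ with hD
  have hDB : D ∈ B I l := succ_mem I l Δ
  have hDX : ∀ i, D * X i ∈ B I l := by
    intro i
    have h1 : D * X i = (D * X i - evg (fun j : Fin N => l j.succ) (l 0) (R i)) +
        evg (fun j : Fin N => l j.succ) (l 0) (R i) := by ring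
    rw [h1]
    exact (B I l).add_mem (ideal_mem l (hΔR i)) (evg_mem I l _)
  have hmonom : ∀ m : Fin L →₀ ℕ, D ^ (∑ i, (Q i).natDegree) * ∏ i, (X i : Po L k) ^ m i ∈
      B I l := by
    intro m
    rw [← Finset.prod_pow_eq_pow_sum, ← Finset.prod_mul_distrib]
    exact (B I l).prod_mem fun i _ => pow_mem I l (X i) (Q i) (hQ i) (hQI i) D hDB (hDX i) (m i)
  set Δ1 : Po N k := Δ ^ (∑ i, (Q i).natDegree) with hΔ1
  have hΔ10 : Δ1 ≠ 0 := pow_ne_zero _ hΔ0
  have h1 : ∀ q : Po L k, aeval (fun j : Fin N => l j.succ) Δ1 * q ∈ B I l := by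
    intro q
    have h2 : aeval (fun j : Fin N => l j.succ) Δ1 = D ^ (∑ i, (Q i).natDegree) := by
      rw [hΔ1, map_pow]
    rw [h2, q.as_sum, Finset.mul_sum]
    refine (B I l).sum_mem fun m _ => ?_
    have h3 : monomial m (coeff m q) = coeff m q • ∏ i, (X i : Po L k) ^ m i := by
      rw [monomial_eq, smul_eq_C_mul, Finsupp.prod_fintype _ _ (fun i => pow_zero _)]
    rw [h3, mul_smul_comm]
    exact (B I l).smul_mem (hmonom m) _
  -- step 2
  obtain ⟨s, hs⟩ : ∃ s, homogeneousComponent s Δ1 ≠ 0 := by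
    by_contra hcon
    push Not at hcon
    apply hΔ10
    rw [← sum_homogeneousComponent Δ1]
    exact Finset.sum_eq_zero fun i _ => hcon i
  have h2 : ∀ (t : ℕ) (q : Po L k), q.IsHomogeneous t → ∃ q' : Po (N + 1) k,
      q'.IsHomogeneous (t + s) ∧
      aeval (fun j : Fin N => l j.succ) (homogeneousComponent s Δ1) * q - aeval l q' ∈ I := by
    intro t q hq
    obtain ⟨q', hq'⟩ := mem_B.1 (h1 q)
    refine ⟨homogeneousComponent (t + s) q', homogeneousComponent_isHomogeneous _ _, ?_⟩
    have h3 := hI _ hq' (t + s)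
    rw [map_sub, hc_aeval l hl, add_comm t s, hc_mul _ _ _ _ hq,
      hc_aeval (fun j : Fin N => l j.succ) (fun j => hl _)] at h3
    rwa [add_comm t s]
  -- step 3
  have hN0 : 0 < N := hN
  refine ⟨homogeneousComponent s Δ1 * X ⟨0, hN0⟩ ^ r, s + r, ?_⟩
  refine ⟨hN, hl, hP, ?_, ?_, by omega, hker, ?_⟩
  · have h3 := (homogeneousComponent_isHomogeneous s Δ1).mul
      ((isHomogeneous_X k (⟨0, hN0⟩ : Fin N)).pow r)
    rwa [one_mul] at h3
  · exact mul_ne_zero hs (pow_ne_zero _ (X_ne_zero _))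
  · intro t q hq
    obtain ⟨q', hq1, hq2⟩ := h2 t q hq
    refine ⟨q' * X (Fin.succ ⟨0, hN0⟩) ^ r, ?_, ?_⟩
    · have h3 := hq1.mul ((isHomogeneous_X k (Fin.succ (⟨0, hN0⟩ : Fin N))).pow r)
      rwa [one_mul, add_assoc] at h3
    · have h3 : ∀ A : Po N k, aeval (fun j : Fin N => l j.succ) (A * X ⟨0, hN0⟩ ^ r) * q -
            aeval l (q' * X (Fin.succ ⟨0, hN0⟩) ^ r) =
          l (Fin.succ ⟨0, hN0⟩) ^ r *
            (aeval (fun j : Fin N => l j.succ) A * q - aeval l q') := by
        intro A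
        rw [map_mul, map_mul, map_pow, map_pow, aeval_X, aeval_X]
        ring
      rw [h3]
      exact I.mul_mem_left _ hq2

end Pool.Agent.H11.HX
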